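import Pool.Agent.H85L.Main

/-!
# The inclusions in the chain DLBA, LBA, E, NE relative to tally oracles
-/

set_option autoImplicit false

namespace Pool.Agent.NEA73.Old.TallyOracles

open H85L

/-- An inclusion between two of the classes `DLBA`, `LBA`, `E`, `NE` which holds, holds relative
to every oracle whose answers depend on the length of the question only; and for comeager many
of these oracles the inclusion relative to the oracle implies the inclusion. -/
theorem result :
    (∀ κ₁ κ₂ : Kind, LinIncl κ₂ κ₁ → ∀ T : ℕ → Bool, OracleIncl (fun q => T q.length) κ₂ κ₁) ∧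
    ∀ᶠ T in residual (ℕ → Bool), ∀ κ₁ κ₂ : Kind,
      OracleIncl (fun q => T q.length) κ₂ κ₁ → LinIncl κ₂ κ₁ :=
  tally

end Pool.Agent.NEA73.Old.TallyOracles
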